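import Pool.Agent.Lib.MP_c28bf6_an.Mir.Stm

set_option autoImplicit false

/-!
# The angular integral (residues)
-/

open Complex

namespace Pool.Agent.Lib.MP_c28bf6_an.Mir

/-- the value of the circle integral -/
theorem ANG_circle (w1 w2 κ : ℂ) (h1 : ‖w1‖ < 1) (h2 : 1 < ‖w2‖) :
    (∮ w in C(0, 1), ((w - w1) ^ 2)⁻¹ • (κ * w * ((w - w2) ^ 2)⁻¹)) =
      (2 * Real.pi * I) * (κ * (-(w1 + w2)) / (w1 - w2) ^ 3) := by
  have hne : w1 ≠ w2 := by
    rintro rfl
    linarith
  have hU : IsOpen ({w2}ᶜ : Set ℂ) := isOpen_compl_singleton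
  have hc : Metric.closedBall (0 : ℂ) 1 ⊆ ({w2}ᶜ : Set ℂ) := by
    intro w hw
    rw [Metric.mem_closedBall, dist_zero_right] at hw
    rw [Set.mem_compl_singleton_iff]
    rintro rfl
    linarith
  have hd : DifferentiableOn ℂ (fun w : ℂ => κ * w * ((w - w2) ^ 2)⁻¹) ({w2}ᶜ : Set ℂ) := by
    intro w hw
    have hw' : (w - w2) ^ 2 ≠ 0 := pow_ne_zero 2 (sub_ne_zero.2 hw)
    apply DifferentiableAt.differentiableWithinAt
    fun_prop (disch := assumption)
  have hw0 : w1 ∈ Metric.ball (0 : ℂ) 1 := by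
    rw [Metric.mem_ball, dist_zero_right]
    exact h1
  have key := two_pi_I_inv_smul_circleIntegral_sub_sq_inv_smul_of_differentiable hU hc hd hw0
  have hder : deriv (fun w : ℂ => κ * w * ((w - w2) ^ 2)⁻¹) w1 =
      κ * (-(w1 + w2)) / (w1 - w2) ^ 3 := by
    have hs : w1 - w2 ≠ 0 := sub_ne_zero.2 hne
    have e1 : HasDerivAt (fun w : ℂ => (w - w2) ^ 2) (2 * (w1 - w2)) w1 := by
      have h0 : HasDerivAt (fun w : ℂ => w - w2) 1 w1 := (hasDerivAt_id w1).sub_const w2
      have h1 := h0.mul h0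
      have h2 : HasDerivAt (fun w : ℂ => (w - w2) ^ 2) (1 * (w1 - w2) + (w1 - w2) * 1) w1 := by
        refine h1.congr_of_eventuallyEq (Filter.Eventually.of_forall fun w => ?_)
        simp only [Pi.mul_apply]
        ring
      have h3 : (2 : ℂ) * (w1 - w2) = 1 * (w1 - w2) + (w1 - w2) * 1 := by ring
      rw [h3]
      exact h2
    have e2 := e1.inv (pow_ne_zero 2 hs)
    have e3 : HasDerivAt (fun w : ℂ => κ * w) κ w1 := by
      simpa using (hasDerivAt_id w1).const_mul κ
    have e4 := e3.mul e2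
    have e5 := e4.deriv
    have e6 : deriv (fun w : ℂ => κ * w * ((w - w2) ^ 2)⁻¹) w1 =
        κ * ((w1 - w2) ^ 2)⁻¹ + κ * w1 * (-(2 * (w1 - w2)) / ((w1 - w2) ^ 2) ^ 2) := e5
    rw [e6]
    field_simp
    ring
  rw [hder] at key
  rw [← key, smul_eq_mul, ← mul_assoc, mul_inv_cancel₀, one_mul]
  exact two_pi_I_ne_zero

theorem p_ANG : S_ANG := by
  intro z h hz
  by_cases hh : h = 0
  · have e : Real.sqrt (z ^ 2 + h ^ 2) = z := by
      rw [hh]
      simp [Real.sqrt_sq hz.le]
    rw [e, hh]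
    have hz' : (z : ℂ) ≠ 0 := by exact_mod_cast hz.ne'
    simp only [zero_mul, ofReal_zero, mul_zero, add_zero, intervalIntegral.integral_const, sub_zero,
      real_smul]
    push_cast
    field_simp
  · set D : ℝ := Real.sqrt (z ^ 2 + h ^ 2) with hD
    have hD2 : D ^ 2 = z ^ 2 + h ^ 2 := Real.sq_sqrt (by positivity)
    have hh2 : 0 < h ^ 2 := by positivity
    have hD0 : 0 ≤ D := Real.sqrt_nonneg _
    have hzD : z < D := by
      nlinarith
    have hDp : 0 < D := by linarith
    have habs : |h| ^ 2 = h ^ 2 := sq_abs h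
    have hhp : 0 < |h| := abs_pos.2 hh
    have hhC : (h : ℂ) ≠ 0 := by exact_mod_cast hh
    have hDC : (D : ℂ) ≠ 0 := by exact_mod_cast hDp.ne'
    set w1 : ℂ := I * ((z - D : ℝ) : ℂ) / (h : ℂ) with hw1
    set w2 : ℂ := I * ((z + D : ℝ) : ℂ) / (h : ℂ) with hw2
    have n1 : ‖w1‖ < 1 := by
      rw [hw1, norm_div, norm_mul, norm_I, one_mul, norm_real, norm_real, Real.norm_eq_abs,
        Real.norm_eq_abs, div_lt_one hhp, abs_of_neg (show z - D < 0 by linarith)]
      nlinarith
    have n2 : 1 < ‖w2‖ := by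
      rw [hw2, norm_div, norm_mul, norm_I, one_mul, norm_real, norm_real, Real.norm_eq_abs,
        Real.norm_eq_abs, one_lt_div hhp, abs_of_pos (show 0 < z + D by linarith)]
      nlinarith
    have hsum : w1 + w2 = 2 * I * z / h := by
      rw [hw1, hw2]
      push_cast
      field_simp
      ring
    have hdiff : w1 - w2 = -(2 * I * D / h) := by
      rw [hw1, hw2]
      push_cast
      field_simp
      ring
    have hDC2 : (D : ℂ) ^ 2 = (z : ℂ) ^ 2 + (h : ℂ) ^ 2 := by exact_mod_cast hD2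
    have hprod : w1 * w2 = 1 := by
      rw [hw1, hw2]
      push_cast
      field_simp
      have hI : I ^ 2 = -1 := I_sq
      linear_combination ((z : ℂ) ^ 2 - (D : ℂ) ^ 2) * hI + hDC2
    have key := ANG_circle w1 w2 (4 * I / (h : ℂ) ^ 2) n1 n2
    have hint : ∫ θ in (0 : ℝ)..(2 * Real.pi),
        (((z : ℂ) + I * ((h * Real.cos θ : ℝ) : ℂ)) ^ 2)⁻¹ =
        ∮ w in C(0, 1), ((w - w1) ^ 2)⁻¹ • (4 * I / (h : ℂ) ^ 2 * w * ((w - w2) ^ 2)⁻¹) := by
      unfold circleIntegral
      apply intervalIntegral.integral_congr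
      intro θ _
      simp only [deriv_circleMap, circleMap, smul_eq_mul, zero_add, ofReal_one, one_mul]
      set W : ℂ := exp (θ * I) with hW
      have hW0 : W ≠ 0 := exp_ne_zero _
      have hWn : ‖W‖ = 1 := by
        rw [hW]
        exact norm_exp_ofReal_mul_I θ
      have hcos : ((Real.cos θ : ℝ) : ℂ) = (W + W⁻¹) / 2 := by
        rw [ofReal_cos, Complex.cos, hW, ← exp_neg]
        ring_nf
      have m1 : W - w1 ≠ 0 := by
        intro e
        rw [sub_eq_zero] at e
        rw [← e, hWn] at n1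
        exact lt_irrefl _ n1
      have m2 : W - w2 ≠ 0 := by
        intro e
        rw [sub_eq_zero] at e
        rw [← e, hWn] at n2
        exact lt_irrefl _ n2
      have e1 : (z : ℂ) + I * ((h * Real.cos θ : ℝ) : ℂ) =
          I * h / (2 * W) * ((W - w1) * (W - w2)) := by
        have e2 : (W - w1) * (W - w2) = W ^ 2 - 2 * I * z / h * W + 1 := by
          have : (W - w1) * (W - w2) = W ^ 2 - (w1 + w2) * W + w1 * w2 := by ring
          rw [this, hsum, hprod]
        rw [e2]
        push_cast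
        rw [← ofReal_cos, hcos]
        field_simp
        have hI : I ^ 2 = -1 := I_sq
        linear_combination (2 * (z : ℂ) * W) * hI
      rw [e1]
      field_simp
      have hI : I ^ 2 = -1 := I_sq
      have hI4 : I ^ 4 = 1 := I_pow_four
      linear_combination (-4 : ℂ) * hI4
    rw [hint, key, hsum, hdiff]
    push_cast
    field_simp
    have hI : I ^ 2 = -1 := I_sq
    ring_nf
end Pool.Agent.Lib.MP_c28bf6_an.Mir
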