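import Pool.Agent.Lib.MP_c28bf6_an.Mir.Stm

/-!
# Mirror theorem, piece ANGS: the angular integral with a shifted angle
-/

namespace Pool.Agent.Lib.MP_c28bf6_an.Mir

theorem ANGS_cos (ζ : ℂ) (θ : ℝ) :
    ζ.re * Real.cos θ + ζ.im * Real.sin θ = ‖ζ‖ * Real.cos (θ - ζ.arg) := by
  rw [Real.cos_sub]
  have h1 := Complex.norm_mul_cos_arg ζ
  have h2 := Complex.norm_mul_sin_arg ζ
  rw [mul_add]
  linear_combination (-Real.cos θ) * h1 + (-Real.sin θ) * h2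

/-- **[ANGS]** -/
theorem p_ANGS (h : S_ANG) : S_ANGS := by
  intro z ζ hz
  rw [← h z ‖ζ‖ hz]
  let F : ℝ → ℂ := fun θ => (((z : ℂ) + Complex.I * ((‖ζ‖ * Real.cos θ : ℝ) : ℂ)) ^ 2)⁻¹
  have hF : Function.Periodic F (2 * Real.pi) := by
    intro θ
    show (((z : ℂ) + Complex.I * ((‖ζ‖ * Real.cos (θ + 2 * Real.pi) : ℝ) : ℂ)) ^ 2)⁻¹ = _
    rw [Real.cos_add_two_pi]
  have h1 : ∀ θ : ℝ, (((z : ℂ) + Complex.I *
      ((ζ.re * Real.cos θ + ζ.im * Real.sin θ : ℝ) : ℂ)) ^ 2)⁻¹ = F (θ - ζ.arg) := by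
    intro θ
    show _ = (((z : ℂ) + Complex.I * ((‖ζ‖ * Real.cos (θ - ζ.arg) : ℝ) : ℂ)) ^ 2)⁻¹
    rw [ANGS_cos]
  calc ∫ θ in (0 : ℝ)..(2 * Real.pi), (((z : ℂ) + Complex.I *
        ((ζ.re * Real.cos θ + ζ.im * Real.sin θ : ℝ) : ℂ)) ^ 2)⁻¹
      = ∫ θ in (0 : ℝ)..(2 * Real.pi), F (θ - ζ.arg) :=
        intervalIntegral.integral_congr fun θ _ => h1 θ
    _ = ∫ θ in (0 - ζ.arg)..(2 * Real.pi - ζ.arg), F θ :=
        intervalIntegral.integral_comp_sub_right F ζ.arg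
    _ = ∫ θ in (-ζ.arg)..(-ζ.arg + 2 * Real.pi), F θ := by
        congr 1 <;> ring
    _ = ∫ θ in (0 : ℝ)..(0 + 2 * Real.pi), F θ := hF.intervalIntegral_add_eq _ _
    _ = _ := by rw [zero_add]

end Pool.Agent.Lib.MP_c28bf6_an.Mir
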