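import Pool.Agent.Lib.MP_c28bf6_an.Mir.Stm

/-!
# [AS] charges that are antisymmetric under the mirror are not in equilibrium
-/

open Finset MeasureTheory

namespace Pool.Agent.Lib.MP_c28bf6_an.Mir

theorem AS_inner_force {E : Type} [NormedAddCommGroup E] [InnerProductSpace ℝ E] (e x y : E)
    (a : ℝ) : inner ℝ e (force (x - y)) =
      (‖x - y‖ ^ 3)⁻¹ * ((inner ℝ e x - a) - (inner ℝ e y - a)) := by
  unfold force
  rw [inner_smul_right, inner_sub_right]
  ring

theorem AS_anti {ι : Type} (R : Finset ι) (f : ι → ι → ℝ) (h : ∀ i j, f i j = - f j i) :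
    ∑ j ∈ R, ∑ i ∈ R, f i j = 0 := by
  have h1 : ∑ j ∈ R, ∑ i ∈ R, f i j = - ∑ j ∈ R, ∑ i ∈ R, f i j := by
    calc ∑ j ∈ R, ∑ i ∈ R, f i j = ∑ i ∈ R, ∑ j ∈ R, f i j := Finset.sum_comm
      _ = ∑ i ∈ R, ∑ j ∈ R, - f j i := by
          refine Finset.sum_congr rfl fun i _ => Finset.sum_congr rfl fun j _ => h i j
      _ = - ∑ j ∈ R, ∑ i ∈ R, f i j := by
          rw [← Finset.sum_neg_distrib]
          refine Finset.sum_congr rfl fun i _ => ?_
          rw [Finset.sum_neg_distrib]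
  linarith

theorem p_AS (h1 : S_PD) (h2 : S_CO) : S_AS := by
  classical
  intro E _ _ _ hE ι _ q v σ e a he hq hσ hv heq
  obtain ⟨π, hπ⟩ := h2 E hE e he
  obtain ⟨s, hs⟩ : ∃ s : ι → ℝ, ∀ i, s i = inner ℝ e (q i) - a := ⟨_, fun _ => rfl⟩
  have hee : inner ℝ e e = (1 : ℝ) := by
    rw [real_inner_self_eq_norm_sq, he]; norm_num
  have hqσ : ∀ i, q (σ i) = q i - (2 * s i) • e := by
    intro i
    rw [← hσ i, mirror, hs]
  have hsσ : ∀ i, s (σ i) = - s i := by
    intro i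
    rw [hs (σ i), hqσ, inner_sub_right, inner_smul_right, hee, hs i]
    ring
  have hσσ : ∀ i, σ (σ i) = i := by
    intro i
    apply hq
    rw [hqσ (σ i), hsσ, hqσ i]
    module
  have hv0 : ∀ i, s i = 0 → v i = 0 := by
    intro i hi
    have h3 : σ i = i := by
      apply hq
      rw [hqσ, hi]
      module
    have h4 := hv i
    rw [h3] at h4
    linarith
  have hπe : π e = 0 := by
    have h3 := hπ e
    rw [hee, he] at h3
    have h4 : ‖π e‖ ^ 2 = 0 := by linarith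
    exact norm_eq_zero.1 ((pow_eq_zero_iff two_ne_zero).1 h4)
  have hπσ : ∀ i, π (q (σ i)) = π (q i) := by
    intro i
    rw [hqσ, map_sub, map_smul, hπe, smul_zero, sub_zero]
  have hnorm : ∀ i j, ‖q i - q j‖ ^ 2 = (s i - s j) ^ 2 + ‖π (q i) - π (q j)‖ ^ 2 := by
    intro i j
    rw [hπ, inner_sub_right, map_sub, hs, hs]
    ring
  have hφ : ∀ i j, inner ℝ e (force (q i - q j)) = (‖q i - q j‖ ^ 3)⁻¹ * (s i - s j) := by
    intro i j
    rw [AS_inner_force e (q i) (q j) a, hs, hs]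
  obtain ⟨R, hR⟩ : ∃ R : Finset ι, R = Finset.univ.filter (fun i => 0 < s i) := ⟨_, rfl⟩
  have hmem : ∀ i, i ∈ R ↔ 0 < s i := by
    intro i; rw [hR]; simp
  -- the equilibrium tested against `e`
  have hE1 : ∀ j, ∑ i, v j * v i * ((‖q i - q j‖ ^ 3)⁻¹ * (s i - s j)) = 0 := by
    intro j
    have h3 : inner ℝ e (∑ i, v i • force (q i - q j)) = (0 : ℝ) := by
      rw [heq j, inner_zero_right]
    rw [inner_sum] at h3
    have h4 : ∑ i, v j * v i * ((‖q i - q j‖ ^ 3)⁻¹ * (s i - s j)) =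
        v j * ∑ i, inner ℝ e (v i • force (q i - q j)) := by
      rw [Finset.mul_sum]
      refine Finset.sum_congr rfl fun i _ => ?_
      rw [inner_smul_right, hφ]
      ring
    rw [h4, h3, mul_zero]
  -- splitting
  have hsplit : ∀ f : ι → ℝ, (∀ i, s i = 0 → f i = 0) →
      ∑ i, f i = ∑ i ∈ R, f i + ∑ k ∈ R, f (σ k) := by
    intro f hf
    rw [← Finset.sum_filter_add_sum_filter_not Finset.univ (fun i => 0 < s i) f, ← hR]
    congr 1
    have h3 : ∑ i ∈ Finset.univ.filter (fun i => ¬ 0 < s i), f i =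
        ∑ i ∈ Finset.univ.filter (fun i => s i < 0), f i := by
      symm
      refine Finset.sum_subset ?_ ?_
      · intro i hi
        simp only [Finset.mem_filter, Finset.mem_univ, true_and] at hi ⊢
        exact not_lt.2 hi.le
      · intro i hi hi2
        simp only [Finset.mem_filter, Finset.mem_univ, true_and] at hi hi2
        exact hf i (le_antisymm (not_lt.1 hi) (not_lt.1 hi2))
    rw [h3]
    refine Finset.sum_nbij' σ σ ?_ ?_ ?_ ?_ ?_
    · intro i hi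
      simp only [Finset.mem_filter, Finset.mem_univ, true_and] at hi
      rw [hmem, hsσ]
      linarith
    · intro i hi
      rw [hmem] at hi
      simp only [Finset.mem_filter, Finset.mem_univ, true_and]
      rw [hsσ]
      linarith
    · intro i _; exact hσσ i
    · intro i _; exact hσσ i
    · intro i _; rw [hσσ]
  have hE2 : ∑ j ∈ R, ∑ k ∈ R,
      v j * v (σ k) * ((‖q (σ k) - q j‖ ^ 3)⁻¹ * (s (σ k) - s j)) = 0 := by
    have h3 : ∑ j ∈ R, ∑ i ∈ R, v j * v i * ((‖q i - q j‖ ^ 3)⁻¹ * (s i - s j)) = 0 := by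
      refine AS_anti R (fun i j => v j * v i * ((‖q i - q j‖ ^ 3)⁻¹ * (s i - s j))) ?_
      intro i j
      show v j * v i * ((‖q i - q j‖ ^ 3)⁻¹ * (s i - s j)) =
        - (v i * v j * ((‖q j - q i‖ ^ 3)⁻¹ * (s j - s i)))
      rw [norm_sub_rev (q j) (q i)]
      ring
    have h4 : ∑ j ∈ R, ∑ i, v j * v i * ((‖q i - q j‖ ^ 3)⁻¹ * (s i - s j)) = 0 :=
      Finset.sum_eq_zero fun j _ => hE1 j
    have h5 : ∑ j ∈ R, ∑ i, v j * v i * ((‖q i - q j‖ ^ 3)⁻¹ * (s i - s j)) =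
        ∑ j ∈ R, ∑ i ∈ R, v j * v i * ((‖q i - q j‖ ^ 3)⁻¹ * (s i - s j)) +
        ∑ j ∈ R, ∑ k ∈ R,
          v j * v (σ k) * ((‖q (σ k) - q j‖ ^ 3)⁻¹ * (s (σ k) - s j)) := by
      rw [← Finset.sum_add_distrib]
      refine Finset.sum_congr rfl fun j _ => ?_
      refine hsplit (fun i => v j * v i * ((‖q i - q j‖ ^ 3)⁻¹ * (s i - s j))) ?_
      intro i hi
      show v j * v i * ((‖q i - q j‖ ^ 3)⁻¹ * (s i - s j)) = 0
      rw [hv0 i hi]
      ring
    rw [h4, h3, zero_add] at h5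
    exact h5.symm
  have hE3 : ∑ j ∈ R, ∑ k ∈ R, v j * v k *
      ((s j + s k) / (Real.sqrt ((s j + s k) ^ 2 + ‖π (q j) - π (q k)‖ ^ 2)) ^ 3) = 0 := by
    rw [← hE2]
    refine Finset.sum_congr rfl fun j _ => Finset.sum_congr rfl fun k _ => ?_
    have h3 : (s j + s k) ^ 2 + ‖π (q j) - π (q k)‖ ^ 2 = ‖q (σ k) - q j‖ ^ 2 := by
      rw [hnorm, hsσ, hπσ, norm_sub_rev (π (q j)) (π (q k))]
      ring
    rw [h3, Real.sqrt_sq (norm_nonneg _), hv, hsσ]
    rw [div_eq_mul_inv]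
    ring
  have hE4 : ∑ j : {i // 0 < s i}, ∑ k : {i // 0 < s i}, v j * v k *
      ((s j + s k) / (Real.sqrt ((s j + s k) ^ 2 + ‖π (q j) - π (q k)‖ ^ 2)) ^ 3) = 0 := by
    refine Eq.trans ?_ hE3
    have h3 : ∀ j : ι, ∑ k ∈ R, v j * v k *
        ((s j + s k) / (Real.sqrt ((s j + s k) ^ 2 + ‖π (q j) - π (q k)‖ ^ 2)) ^ 3) =
        ∑ k : {i // 0 < s i}, v j * v k *
        ((s j + s k) / (Real.sqrt ((s j + s k) ^ 2 + ‖π (q j) - π (q k)‖ ^ 2)) ^ 3) := by
      intro j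
      exact Finset.sum_subtype R hmem (fun k => v j * v k *
        ((s j + s k) / (Real.sqrt ((s j + s k) ^ 2 + ‖π (q j) - π (q k)‖ ^ 2)) ^ 3))
    rw [Finset.sum_congr rfl fun j _ => h3 j]
    exact (Finset.sum_subtype R hmem (fun j => ∑ k : {i // 0 < s i}, v j * v k *
      ((s j + s k) / (Real.sqrt ((s j + s k) ^ 2 + ‖π (q j) - π (q k)‖ ^ 2)) ^ 3))).symm
  have hvR := h1 {i // 0 < s i} (fun i => s i) (fun i => π (q i)) (fun i => v i)
    (fun j => j.2) (by
      intro i j hij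
      simp only [Prod.mk.injEq] at hij
      apply Subtype.ext
      apply hq
      have h3 := hnorm (i : ι) (j : ι)
      rw [hij.1, hij.2, sub_self, sub_self, norm_zero] at h3
      have h4 : ‖q (i : ι) - q (j : ι)‖ ^ 2 = 0 := by rw [h3]; ring
      exact sub_eq_zero.1 (norm_eq_zero.1 ((pow_eq_zero_iff two_ne_zero).1 h4))) hE4
  have hpos : ∀ i, 0 < s i → v i = 0 := by
    intro i hi
    exact congrFun hvR ⟨i, hi⟩
  funext i
  show v i = 0
  rcases lt_trichotomy (s i) 0 with h | h | h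
  · have h3 := hpos (σ i) (by rw [hsσ]; linarith)
    rw [hv] at h3
    linarith
  · exact hv0 i h
  · exact hpos i h

end Pool.Agent.Lib.MP_c28bf6_an.Mir
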