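import Pool.Agent.Lib.MP_c28bf6_an.Mir.Stm

/-!
# Mirror theorem, piece CO: coordinates in dimension at most three
-/

set_option autoImplicit false

namespace Pool.Agent.Lib.MP_c28bf6_an.Mir

theorem CO_iso (F : Type*) [NormedAddCommGroup F] [InnerProductSpace ℝ F]
    [FiniteDimensional ℝ F] (h : Module.finrank ℝ F ≤ 2) :
    ∃ f : F →ₗ[ℝ] ℂ, ∀ x, ‖f x‖ = ‖x‖ := by
  let b := stdOrthonormalBasis ℝ F
  have hb : Orthonormal ℝ b.toBasis := by
    rw [OrthonormalBasis.coe_toBasis]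
    exact b.orthonormal
  let c : Fin (Module.finrank ℝ F) → ℂ := fun i => Complex.orthonormalBasisOneI (Fin.castLE h i)
  have hc : Orthonormal ℝ c :=
    Complex.orthonormalBasisOneI.orthonormal.comp (Fin.castLE h) (Fin.castLE_injective h)
  let f : F →ₗ[ℝ] ℂ := b.toBasis.constr ℝ c
  have hf : Orthonormal ℝ (f ∘ b.toBasis) := by
    have h1 : f ∘ b.toBasis = c := by
      funext i
      exact b.toBasis.constr_basis ℝ c i
    rw [h1]
    exact hc
  exact ⟨f, fun x => (f.isometryOfOrthonormal hb hf).norm_map x⟩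

theorem p_CO : S_CO := by
  intro E _ _ _ hE e he
  have he0 : e ≠ 0 := by
    intro h
    rw [h, norm_zero] at he
    exact zero_ne_one he
  have h1 : Module.finrank ℝ (Submodule.span ℝ {e}) = 1 := finrank_span_singleton he0
  have h2 := Submodule.finrank_add_finrank_orthogonal (Submodule.span ℝ {e})
  have h3 : Module.finrank ℝ (Submodule.span ℝ {e})ᗮ ≤ 2 := by omega
  obtain ⟨f, hf⟩ := CO_iso (Submodule.span ℝ {e})ᗮ h3
  refine ⟨f.comp ((Submodule.span ℝ {e})ᗮ.orthogonalProjectionOnto :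
    E →ₗ[ℝ] (Submodule.span ℝ {e})ᗮ), fun x => ?_⟩
  have h5 := Submodule.norm_sq_eq_add_norm_sq_projection x (Submodule.span ℝ {e})
  have h4 : ‖(Submodule.span ℝ {e}).orthogonalProjectionOnto x‖ ^ 2 = (inner ℝ e x) ^ 2 := by
    have h6 : ‖(Submodule.span ℝ {e}).orthogonalProjectionOnto x‖ =
        ‖(Submodule.span ℝ {e}).starProjection x‖ := rfl
    rw [h6, Submodule.starProjection_unit_singleton ℝ he, norm_smul, he, mul_one,
      Real.norm_eq_abs, sq_abs]
  rw [h5, h4, LinearMap.comp_apply, hf]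
  rfl

end Pool.Agent.Lib.MP_c28bf6_an.Mir
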