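import Pool.Agent.Lib.MP_c28bf6_an.Mir.Stm

/-!
# Mirror theorem: the piece DYN
-/

open Finset

namespace Pool.Agent.Lib.MP_c28bf6_an.Mir

theorem p_DYN (h : S_RP) : S_DYN := by
  intro E _ _ _ hfin n _ μ X τ hc t σ e a he hσ i k
  have hinj : Function.Injective (fun j : ZMod n => X j t) := by
    intro j l hjl
    by_contra hne
    exact hc.nocol t j l hne hjl
  have key : ∀ w ∈ Core.W n μ, ∀ k : ZMod n, w (k + (σ i - i)) = w k := by
    intro w hw k
    have h1 := h E hfin (ZMod n) (fun j => X j t) (fun j => w (j + (k - i))) σ e a he hinj hσ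
      (fun j => hc.equil_W (Core.W_shift hw (k - i)) t j) i
    have e1 : σ i + (k - i) = k + (σ i - i) := by abel
    have e2 : i + (k - i) = k := by abel
    simp only [e1, e2] at h1
    exact h1
  have hd : ∀ s : ZMod n, μ (k + s + (σ i - i)) - μ (k + s) = μ (k + (σ i - i)) - μ k := by
    intro s
    have h1 := key _ (Core.diff_mem (μ := μ) s) k
    have e1 : k + (σ i - i) + s = k + s + (σ i - i) := by abel
    simp only [e1] at h1
    linarith
  have hsum : ∑ j : ZMod n, (μ (j + (σ i - i)) - μ j) = 0 :=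
    Core.sum_W (Core.diff_mem (μ := μ) (σ i - i))
  have hconst : ∀ j : ZMod n, μ (j + (σ i - i)) - μ j = μ (k + (σ i - i)) - μ k := by
    intro j
    have h1 := hd (j - k)
    have e1 : k + (j - k) = j := by abel
    rw [e1] at h1
    exact h1
  rw [Finset.sum_congr rfl (fun j _ => hconst j), Finset.sum_const, nsmul_eq_mul] at hsum
  have hn : ((Finset.univ : Finset (ZMod n)).card : ℝ) ≠ 0 := by
    simp [Finset.card_univ, ZMod.card, NeZero.ne n]
  rcases mul_eq_zero.1 hsum with h1 | h1
  · exact absurd h1 hn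
  · linarith

end Pool.Agent.Lib.MP_c28bf6_an.Mir
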