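import Pool.Agent.Lib.MP_c28bf6_an.Mir.Stm

/-!
# Mirror theorem, piece EXPI: distinct exponentials are linearly independent on `(0, ∞)`
-/

namespace Pool.Agent.Lib.MP_c28bf6_an.Mir

/-- the character `t ↦ exp (-(a t))` of the half line -/
noncomputable def EXPI_chi (a : ℂ) : Multiplicative NNReal →* ℂ where
  toFun t := Complex.exp (-(a * (((Multiplicative.toAdd t : NNReal) : ℝ) : ℂ)))
  map_one' := by simp
  map_mul' s t := by
    rw [← Complex.exp_add]
    congr 1
    rw [toAdd_mul]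
    push_cast
    ring

theorem EXPI_chi_apply (a : ℂ) (t : NNReal) :
    EXPI_chi a (Multiplicative.ofAdd t) = Complex.exp (-(a * ((t : ℝ) : ℂ))) := rfl

theorem EXPI_inj {a b : ℂ} (h : EXPI_chi a = EXPI_chi b) : a = b := by
  by_contra hab
  have hd : a - b ≠ 0 := sub_ne_zero.2 hab
  have hn : 0 < ‖a - b‖ := norm_pos_iff.2 hd
  have h1 := DFunLike.congr_fun h (Multiplicative.ofAdd (‖a - b‖₊⁻¹))
  rw [EXPI_chi_apply, EXPI_chi_apply, Complex.exp_eq_exp_iff_exists_int] at h1
  obtain ⟨n, hn1⟩ := h1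
  have hc : (((‖a - b‖₊⁻¹ : NNReal) : ℝ) : ℂ) = ((‖a - b‖⁻¹ : ℝ) : ℂ) := by
    simp
  rw [hc] at hn1
  have h2 : -((a - b) * ((‖a - b‖⁻¹ : ℝ) : ℂ)) = (n : ℂ) * (2 * (Real.pi : ℂ) * Complex.I) := by
    linear_combination hn1
  have h3 := congrArg norm h2
  rw [norm_neg, norm_mul, norm_mul, Complex.norm_real, norm_inv, norm_norm,
    mul_inv_cancel₀ hn.ne', norm_mul, norm_mul, Complex.norm_I, Complex.norm_real,
    Complex.norm_intCast, Real.norm_eq_abs, abs_of_pos Real.pi_pos] at h3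
  have h4 : ‖(2 : ℂ)‖ = 2 := by simp
  rw [h4, mul_one] at h3
  have hpi := Real.pi_gt_three
  rcases eq_or_ne n 0 with h0 | h0
  · rw [h0] at h3
    simp at h3
  · have h5 : (1 : ℝ) ≤ |(n : ℝ)| := by
      have : (1 : ℤ) ≤ |n| := Int.one_le_abs h0
      exact_mod_cast this
    nlinarith

/-- **[EXPI]** -/
theorem p_EXPI : S_EXPI := by
  intro ι _ a v ha hv
  have hli : LinearIndependent ℂ (fun j : ι => (EXPI_chi (a j) : Multiplicative NNReal → ℂ)) :=
    (linearIndependent_monoidHom (Multiplicative NNReal) ℂ).comp (fun j => EXPI_chi (a j))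
      (fun i j h => ha (EXPI_inj h))
  have h1 := Fintype.linearIndependent_iff.1 hli
    (fun j => (v j : ℂ) * Complex.exp (-(a j))) (by
      funext t
      rw [Finset.sum_apply]
      have ht : (0 : ℝ) < (((Multiplicative.toAdd t : NNReal) : ℝ) + 1) := by positivity
      have h2 := hv _ ht
      rw [Pi.zero_apply, ← h2]
      apply Finset.sum_congr rfl
      intro j _
      rw [Pi.smul_apply, smul_eq_mul]
      show (v j : ℂ) * Complex.exp (-(a j)) *
        Complex.exp (-(a j * (((Multiplicative.toAdd t : NNReal) : ℝ) : ℂ))) = _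
      rw [mul_assoc, ← Complex.exp_add]
      congr 2
      push_cast
      ring)
  funext j
  have h2 := h1 j
  rcases mul_eq_zero.1 h2 with h3 | h3
  · exact_mod_cast h3
  · exact absurd h3 (Complex.exp_ne_zero _)

end Pool.Agent.Lib.MP_c28bf6_an.Mir
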