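import Pool.Agent.Lib.MP_c28bf6_an.Mir.Stm

/-!
# Mirror symmetric instants of choreographies: piece GEN, a generic angle
-/

set_option autoImplicit false

open Finset MeasureTheory

namespace Pool.Agent.Lib.MP_c28bf6_an.Mir

theorem p_GEN : S_GEN := by
  intro ι _ s ζ hinj
  -- the bad values of the tangent
  have hB : (⋃ p : ι × ι, {x : ℝ | (ζ p.1 - ζ p.2).re + (ζ p.1 - ζ p.2).im * x = 0 ∧
      ζ p.1 ≠ ζ p.2}).Finite := by
    refine Set.finite_iUnion fun p => ?_
    refine Set.Subsingleton.finite ?_
    rintro x ⟨hx, hne⟩ y ⟨hy, -⟩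
    by_contra hxy
    have h1 : (ζ p.1 - ζ p.2).im * (x - y) = 0 := by linarith
    have h2 : (ζ p.1 - ζ p.2).im = 0 := by
      rcases mul_eq_zero.1 h1 with h | h
      · exact h
      · exact absurd (sub_eq_zero.1 h) hxy
    have h3 : (ζ p.1 - ζ p.2).re = 0 := by
      rw [h2, zero_mul, add_zero] at hx
      exact hx
    exact hne (sub_eq_zero.1 (Complex.ext h3 h2))
  obtain ⟨x, hx0, hx⟩ := ((Set.Ioi_infinite (0 : ℝ)).sdiff hB).nonempty
  have hx0' : (0 : ℝ) < x := hx0
  refine ⟨Real.arctan x, ⟨(Real.arctan_pos.2 hx0').le, ?_⟩, ?_⟩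
  · have h1 := Real.arctan_lt_pi_div_two x
    have h2 := Real.pi_pos
    linarith
  · intro j k hjk
    have hc : 0 < Real.cos (Real.arctan x) := Real.cos_arctan_pos x
    have hs : Real.sin (Real.arctan x) = x * Real.cos (Real.arctan x) := by
      have h1 := Real.tan_arctan x
      rw [Real.tan_eq_sin_div_cos, div_eq_iff hc.ne'] at h1
      exact h1
    have hre : s j = s k := by
      have h1 := congrArg Complex.re hjk
      simp only [Complex.add_re, Complex.ofReal_re, Complex.mul_re, Complex.I_re, Complex.I_im,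
        Complex.ofReal_im, zero_mul, mul_zero, sub_zero, add_zero] at h1
      exact h1
    have him : (ζ j).re * Real.cos (Real.arctan x) + (ζ j).im * Real.sin (Real.arctan x) =
        (ζ k).re * Real.cos (Real.arctan x) + (ζ k).im * Real.sin (Real.arctan x) := by
      have h1 := congrArg Complex.im hjk
      simp only [Complex.add_im, Complex.ofReal_im, Complex.mul_im, Complex.I_re, Complex.I_im,
        zero_mul, one_mul, zero_add, Complex.ofReal_re] at h1
      exact h1
    rw [hs] at him
    have h4 : Real.cos (Real.arctan x) * ((ζ j - ζ k).re + (ζ j - ζ k).im * x) = 0 := by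
      rw [Complex.sub_re, Complex.sub_im]
      linarith
    have h5 := (mul_eq_zero.1 h4).resolve_left hc.ne'
    have h6 : ζ j = ζ k := by
      by_contra hne
      exact hx (Set.mem_iUnion.2 ⟨(j, k), h5, hne⟩)
    exact hinj (Prod.ext hre h6)

end Pool.Agent.Lib.MP_c28bf6_an.Mir
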