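import Pool.Agent.Lib.MP_c28bf6_an.Mir.Stm

/-!
# Mirror symmetric instants of choreographies: piece `INS`
-/

set_option autoImplicit false

namespace Pool.Agent.Lib.MP_c28bf6_an.Mir

theorem p_INS (h : S_DYN) : S_INS := by
  intro E _ _ _ hE n m x T hch t σ e a he hσ i s hs k
  obtain _ | l := n
  · exact k.elim0
  have hcore := hch.core
  have h1 := h E hE (l + 1) (fun j : ZMod (l + 1) => m j) (bodyZ l x T)
    (T / ((l + 1 : ℕ) : ℝ)) hcore t σ e a he hσ
  have h2 := h1 i k
  have h3 : (show ZMod (l + 1) from σ i) = (show ZMod (l + 1) from i) + (s : ZMod (l + 1)) := by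
    have h4 := cyc_eq s (show ZMod (l + 1) from i)
    rw [← h4]
    exact hs.symm
  have h5 : (show ZMod (l + 1) from σ i) - (show ZMod (l + 1) from i) = (s : ZMod (l + 1)) := by
    rw [h3, add_sub_cancel_left]
  refine (cyc_apply m s k).trans ?_
  rw [← h5]
  exact h2

end Pool.Agent.Lib.MP_c28bf6_an.Mir
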