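import Pool.Agent.Lib.MP_c28bf6_an.Mir.Stm

/-!
# [PD] the kernel of the force between mirror images is strictly positive definite
-/

open Finset MeasureTheory

namespace Pool.Agent.Lib.MP_c28bf6_an.Mir

/-- the base of the kernel -/
noncomputable def PD_b (z : ℝ) (ξ : ℂ) (θ : ℝ) : ℂ :=
  (z : ℂ) + Complex.I * ((ξ.re * Real.cos θ + ξ.im * Real.sin θ : ℝ) : ℂ)

theorem PD_b_re (z : ℝ) (ξ : ℂ) (θ : ℝ) : (PD_b z ξ θ).re = z := by
  unfold PD_b
  rw [Complex.add_re, Complex.ofReal_re, Complex.I_mul_re, Complex.ofReal_im]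
  ring

theorem PD_b_cont (z : ℝ) (ξ : ℂ) : Continuous (PD_b z ξ) := by
  unfold PD_b
  fun_prop

theorem PD_b_ne {z : ℝ} (hz : 0 < z) (ξ : ℂ) (θ : ℝ) : PD_b z ξ θ ≠ 0 := by
  intro h
  have h1 := PD_b_re z ξ θ
  rw [h, Complex.zero_re] at h1
  linarith

theorem PD_inv_cont {z : ℝ} (hz : 0 < z) (ξ : ℂ) :
    Continuous (fun θ => ((PD_b z ξ θ) ^ 2)⁻¹) :=
  ((PD_b_cont z ξ).pow 2).inv₀ fun θ => pow_ne_zero 2 (PD_b_ne hz ξ θ)

theorem PD_b_add (s1 s2 : ℝ) (ξ1 ξ2 : ℂ) (θ : ℝ) :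
    PD_b s1 ξ1 θ + (starRingEnd ℂ) (PD_b s2 ξ2 θ) = PD_b (s1 + s2) (ξ1 - ξ2) θ := by
  unfold PD_b
  rw [map_add, map_mul, Complex.conj_ofReal, Complex.conj_ofReal, Complex.conj_I,
    Complex.sub_re, Complex.sub_im]
  push_cast
  ring

theorem p_PD (h1 : S_PDA) (h2 : S_ANGS) (h3 : S_GEN) : S_PD := by
  intro ι _ s ζ v hs hinj h0
  have hss : ∀ j k, 0 < s j + s k := fun j k => add_pos (hs j) (hs k)
  obtain ⟨F, hF⟩ : ∃ F : ℝ → ℂ, F = fun θ => ∑ j, ∑ k, ((v j * v k : ℝ) : ℂ) *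
    ((PD_b (s j + s k) (ζ j - ζ k) θ) ^ 2)⁻¹ := ⟨_, rfl⟩
  have hterm : ∀ j k, Continuous (fun θ => ((v j * v k : ℝ) : ℂ) *
      ((PD_b (s j + s k) (ζ j - ζ k) θ) ^ 2)⁻¹) := fun j k =>
    continuous_const.mul (PD_inv_cont (hss j k) _)
  have hFc : Continuous F := by
    rw [hF]
    exact continuous_finsetSum _ fun j _ => continuous_finsetSum _ fun k _ => hterm j k
  have hFint : ∫ θ in (0 : ℝ)..(2 * Real.pi), F θ = 0 := by
    rw [hF]
    rw [intervalIntegral.integral_finsetSum]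
    · have h4 : ∀ j ∈ (Finset.univ : Finset ι),
          ∫ θ in (0 : ℝ)..(2 * Real.pi), ∑ k, ((v j * v k : ℝ) : ℂ) *
            ((PD_b (s j + s k) (ζ j - ζ k) θ) ^ 2)⁻¹ =
          ∑ k, ((2 * Real.pi * (v j * v k *
            ((s j + s k) / (Real.sqrt ((s j + s k) ^ 2 + ‖ζ j - ζ k‖ ^ 2)) ^ 3)) : ℝ) : ℂ) := by
        intro j _
        rw [intervalIntegral.integral_finsetSum]
        · refine Finset.sum_congr rfl fun k _ => ?_
          rw [intervalIntegral.integral_const_mul]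
          have h5 := h2 (s j + s k) (ζ j - ζ k) (hss j k)
          have h6 : ∫ θ in (0 : ℝ)..(2 * Real.pi),
              ((PD_b (s j + s k) (ζ j - ζ k) θ) ^ 2)⁻¹ =
              ((2 * Real.pi * (s j + s k) /
                (Real.sqrt ((s j + s k) ^ 2 + ‖ζ j - ζ k‖ ^ 2)) ^ 3 : ℝ) : ℂ) := h5
          rw [h6, ← Complex.ofReal_mul]
          congr 1
          ring
        · intro k _
          exact (hterm j k).intervalIntegrable _ _
      rw [Finset.sum_congr rfl h4]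
      have h7 : ∑ j, ∑ k, (2 * Real.pi * (v j * v k *
            ((s j + s k) / (Real.sqrt ((s j + s k) ^ 2 + ‖ζ j - ζ k‖ ^ 2)) ^ 3)) : ℝ) = 0 := by
        have h8 : ∑ j, ∑ k, (2 * Real.pi * (v j * v k *
            ((s j + s k) / (Real.sqrt ((s j + s k) ^ 2 + ‖ζ j - ζ k‖ ^ 2)) ^ 3)) : ℝ) =
            2 * Real.pi * ∑ j, ∑ k, v j * v k *
            ((s j + s k) / (Real.sqrt ((s j + s k) ^ 2 + ‖ζ j - ζ k‖ ^ 2)) ^ 3) := by
          rw [Finset.mul_sum]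
          refine Finset.sum_congr rfl fun j _ => ?_
          rw [Finset.mul_sum]
        rw [h8, h0, mul_zero]
      exact_mod_cast h7
    · intro j _
      exact (continuous_finsetSum _ fun k _ => hterm j k).intervalIntegrable _ _
  have hreint : ∫ θ in (0 : ℝ)..(2 * Real.pi), (F θ).re = 0 := by
    have h4 := Complex.reCLM.intervalIntegral_comp_comm
      (hFc.intervalIntegrable (μ := volume) 0 (2 * Real.pi))
    rw [hFint, map_zero] at h4
    exact h4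
  have hQ : ∀ θ, F θ = ∑ j, ∑ k, ((v j * v k : ℝ) : ℂ) *
      ((PD_b (s j) (ζ j) θ + (starRingEnd ℂ) (PD_b (s k) (ζ k) θ)) ^ 2)⁻¹ := by
    intro θ
    rw [hF]
    refine Finset.sum_congr rfl fun j _ => Finset.sum_congr rfl fun k _ => ?_
    rw [PD_b_add]
  have hpd : ∀ θ, 0 ≤ (F θ).re ∧ ((F θ).re = 0 →
      Function.Injective (fun j => PD_b (s j) (ζ j) θ) → v = 0) := by
    intro θ
    rw [hQ]
    refine h1 ι (fun j => PD_b (s j) (ζ j) θ) v ?_
    intro j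
    show 0 < (PD_b (s j) (ζ j) θ).re
    rw [PD_b_re]
    exact hs j
  obtain ⟨θ, hθ, hθinj⟩ := h3 ι s ζ hinj
  refine (hpd θ).2 ?_ hθinj
  by_contra hne
  have hpos : 0 < (F θ).re := lt_of_le_of_ne (hpd θ).1 (Ne.symm hne)
  have h5 : 0 < ∫ θ in (0 : ℝ)..(2 * Real.pi), (F θ).re := by
    refine intervalIntegral.integral_pos (by positivity) ?_ ?_ ?_
    · exact (Complex.continuous_re.comp hFc).continuousOn
    · intro x _
      exact (hpd x).1
    · exact ⟨θ, hθ, hpos⟩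
  rw [hreint] at h5
  exact lt_irrefl _ h5

end Pool.Agent.Lib.MP_c28bf6_an.Mir
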