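import Pool.Agent.Lib.MP_c28bf6_an.Mir.Stm

/-!
# [PDA] the kernel `(a + conj b)^(-2)` is strictly positive definite on the right half plane
-/

open Finset MeasureTheory

namespace Pool.Agent.Lib.MP_c28bf6_an.Mir

/-- the exponential sum with exponents `a` and coefficients `v` -/
noncomputable def PDA_g {ι : Type} [Fintype ι] (a : ι → ℂ) (v : ι → ℝ) (t : ℝ) : ℂ :=
  ∑ j, (v j : ℂ) * Complex.exp (-(a j * (t : ℂ)))

theorem PDA_cont {ι : Type} [Fintype ι] (a : ι → ℂ) (v : ι → ℝ) : Continuous (PDA_g a v) := by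
  unfold PDA_g
  refine continuous_finsetSum _ fun j _ => ?_
  fun_prop

theorem PDA_sq {ι : Type} [Fintype ι] (a : ι → ℂ) (v : ι → ℝ) (t : ℝ) :
    ∑ j, ∑ k, ((v j * v k : ℝ) : ℂ) *
      ((t : ℂ) * Complex.exp (-((a j + (starRingEnd ℂ) (a k)) * (t : ℂ)))) =
      ((t * ‖PDA_g a v t‖ ^ 2 : ℝ) : ℂ) := by
  have h1 : (((‖PDA_g a v t‖ ^ 2 : ℝ)) : ℂ) = PDA_g a v t * (starRingEnd ℂ) (PDA_g a v t) := by
    rw [Complex.mul_conj, Complex.normSq_eq_norm_sq]
  rw [Complex.ofReal_mul, h1]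
  have h2 : (starRingEnd ℂ) (PDA_g a v t) =
      ∑ k, (v k : ℂ) * Complex.exp (-((starRingEnd ℂ) (a k) * (t : ℂ))) := by
    unfold PDA_g
    rw [map_sum]
    refine Finset.sum_congr rfl fun k _ => ?_
    rw [map_mul, Complex.conj_ofReal, ← Complex.exp_conj, map_neg, map_mul, Complex.conj_ofReal]
  rw [h2]
  unfold PDA_g
  rw [Finset.sum_mul_sum, Finset.mul_sum]
  refine Finset.sum_congr rfl fun j _ => ?_
  rw [Finset.mul_sum]
  refine Finset.sum_congr rfl fun k _ => ?_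
  have h3 : -((a j + (starRingEnd ℂ) (a k)) * (t : ℂ)) =
      -(a j * (t : ℂ)) + -((starRingEnd ℂ) (a k) * (t : ℂ)) := by ring
  rw [h3, Complex.exp_add]
  push_cast
  ring

theorem PDA_int {ι : Type} [Fintype ι] (h1 : S_LAP) (a : ι → ℂ) (v : ι → ℝ)
    (ha : ∀ j, 0 < (a j).re) :
    IntegrableOn (fun t : ℝ => t * ‖PDA_g a v t‖ ^ 2) (Set.Ioi 0) ∧
    ∑ j, ∑ k, ((v j * v k : ℝ) : ℂ) * ((a j + (starRingEnd ℂ) (a k)) ^ 2)⁻¹ =
      ((∫ t in Set.Ioi (0 : ℝ), t * ‖PDA_g a v t‖ ^ 2 : ℝ) : ℂ) := by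
  have hc : ∀ j k, 0 < (a j + (starRingEnd ℂ) (a k)).re := by
    intro j k
    rw [Complex.add_re, Complex.conj_re]
    exact add_pos (ha j) (ha k)
  have hI : ∀ j k, IntegrableOn (fun t : ℝ => ((v j * v k : ℝ) : ℂ) *
      ((t : ℂ) * Complex.exp (-((a j + (starRingEnd ℂ) (a k)) * (t : ℂ))))) (Set.Ioi 0) := by
    intro j k
    exact (h1 _ (hc j k)).1.const_mul _
  have hF : IntegrableOn (fun t : ℝ => ∑ j, ∑ k, ((v j * v k : ℝ) : ℂ) *
      ((t : ℂ) * Complex.exp (-((a j + (starRingEnd ℂ) (a k)) * (t : ℂ))))) (Set.Ioi 0) := by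
    refine integrable_finsetSum _ fun j _ => ?_
    refine integrable_finsetSum _ fun k _ => ?_
    exact hI j k
  have hF2 : ∫ t in Set.Ioi (0 : ℝ), (∑ j, ∑ k, ((v j * v k : ℝ) : ℂ) *
      ((t : ℂ) * Complex.exp (-((a j + (starRingEnd ℂ) (a k)) * (t : ℂ))))) =
      ∑ j, ∑ k, ((v j * v k : ℝ) : ℂ) * ((a j + (starRingEnd ℂ) (a k)) ^ 2)⁻¹ := by
    rw [integral_finsetSum]
    · refine Finset.sum_congr rfl fun j _ => ?_
      rw [integral_finsetSum]
      · refine Finset.sum_congr rfl fun k _ => ?_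
        rw [integral_const_mul, (h1 _ (hc j k)).2]
      · intro k _
        exact hI j k
    · intro j _
      refine integrable_finsetSum _ fun k _ => ?_
      exact hI j k
  have hfun : (fun t : ℝ => ∑ j, ∑ k, ((v j * v k : ℝ) : ℂ) *
      ((t : ℂ) * Complex.exp (-((a j + (starRingEnd ℂ) (a k)) * (t : ℂ))))) =
      fun t : ℝ => ((t * ‖PDA_g a v t‖ ^ 2 : ℝ) : ℂ) := by
    funext t
    exact PDA_sq a v t
  rw [hfun] at hF hF2
  constructor
  · have h := hF.re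
    exact h.congr (Filter.Eventually.of_forall fun t => Complex.ofReal_re _)
  · rw [← hF2]
    exact integral_ofReal

theorem p_PDA (h1 : S_LAP) (h2 : S_EXPI) : S_PDA := by
  intro ι _ a v ha
  obtain ⟨hi, hs⟩ := PDA_int h1 a v ha
  have hnn : ∀ t ∈ Set.Ioi (0 : ℝ), 0 ≤ t * ‖PDA_g a v t‖ ^ 2 := by
    intro t ht
    exact mul_nonneg (le_of_lt ht) (sq_nonneg _)
  rw [hs, Complex.ofReal_re]
  refine ⟨setIntegral_nonneg measurableSet_Ioi hnn, ?_⟩
  intro h0 hinj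
  have hae : (fun t : ℝ => t * ‖PDA_g a v t‖ ^ 2) =ᵐ[volume.restrict (Set.Ioi 0)] 0 := by
    refine (setIntegral_eq_zero_iff_of_nonneg_ae ?_ hi).1 h0
    refine (ae_restrict_iff' measurableSet_Ioi).2 (Filter.Eventually.of_forall fun t ht => ?_)
    exact hnn t ht
  have heq : Set.EqOn (fun t : ℝ => t * ‖PDA_g a v t‖ ^ 2) 0 (Set.Ioi 0) := by
    refine MeasureTheory.Measure.eqOn_open_of_ae_eq hae isOpen_Ioi ?_ ?_
    · exact (continuous_id.mul ((PDA_cont a v).norm.pow 2)).continuousOn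
    · exact continuousOn_const
  refine h2 ι a v hinj ?_
  intro t ht
  have h3 := heq ht
  simp only [Pi.zero_apply] at h3
  have h4 : ‖PDA_g a v t‖ ^ 2 = 0 := by
    rcases mul_eq_zero.1 h3 with h | h
    · exact absurd h (ne_of_gt ht)
    · exact h
  have h5 : PDA_g a v t = 0 := by
    have := pow_eq_zero_iff (two_ne_zero) |>.1 h4
    exact norm_eq_zero.1 this
  exact h5

end Pool.Agent.Lib.MP_c28bf6_an.Mir
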