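import Pool.Agent.Lib.MP_c28bf6_an.Mir.Stm

/-!
# Mirror symmetric instants of choreographies: [REV] a time reversing reflection symmetry
-/

set_option autoImplicit false

namespace Pool.Agent.Lib.MP_c28bf6_an.Mir

theorem REV_per {E : Type*} (x : ℝ → E) (T : ℝ) (h : ∀ t, x (t + T) = x t) (k : ℤ) (A B : ℝ)
    (hAB : A = B + k * T) : x A = x B := by
  have hp : Function.Periodic x T := h
  rw [hAB]
  exact hp.int_mul k B

theorem p_REV (hINS : S_INS) : S_REV := by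
  intro E _ _ _ hE n m x T hch c e a he hc i j
  have hn : 0 < n := Fin.pos i
  have hnR : (n : ℝ) ≠ 0 := by
    have := hn.ne'
    exact_mod_cast this
  let σ : Fin n → Fin n := fun i => ⟨(n + 1 - (i : ℕ)) % n, Nat.mod_lt _ hn⟩
  have hσ : ∀ i, mirror e a (body n x T i (c / 2 - T / (2 * n))) =
      body n x T (σ i) (c / 2 - T / (2 * n)) := by
    intro i
    unfold body
    rw [← hc]
    have hi : (i : ℕ) ≤ n + 1 := by
      have := i.2
      omega
    have hdiv : ((σ i : Fin n) : ℕ) + n * ((n + 1 - (i : ℕ)) / n) = n + 1 - (i : ℕ) :=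
      Nat.mod_add_div _ _
    have hdivR : (((σ i : Fin n) : ℕ) : ℝ) + n * (((n + 1 - (i : ℕ)) / n : ℕ) : ℝ) =
        n + 1 - ((i : ℕ) : ℝ) := by
      have h1 : ((((σ i : Fin n) : ℕ) + n * ((n + 1 - (i : ℕ)) / n) : ℕ) : ℝ) =
          ((n + 1 - (i : ℕ) : ℕ) : ℝ) := by rw [hdiv]
      rw [Nat.cast_sub hi] at h1
      push_cast at h1 ⊢
      linarith
    have hσR : (((σ i : Fin n) : ℕ) : ℝ) =
        n + 1 - ((i : ℕ) : ℝ) - n * (((n + 1 - (i : ℕ)) / n : ℕ) : ℝ) := by linarith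
    refine REV_per x T hch.periodic ((((n + 1 - (i : ℕ)) / n : ℕ) : ℤ) - 1) _ _ ?_
    rw [hσR]
    generalize (n + 1 - (i : ℕ)) / n = q
    push_cast
    field_simp
    ring
  have hm : ∀ k : Fin n, m (cyc 1 k) = m k := by
    refine hINS E hE n m x T hch (c / 2 - T / (2 * n)) σ e a he hσ ⟨0, hn⟩ 1 ?_
    apply Fin.ext
    change (0 + 1) % n = (n + 1 - 0) % n
    rw [Nat.sub_zero, Nat.add_mod_left, zero_add]
  have h0 : ∀ (v : ℕ) (hv : v < n), m ⟨v, hv⟩ = m ⟨0, hn⟩ := by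
    intro v
    induction v with
    | zero => intro _; rfl
    | succ v ih =>
      intro hv
      have hv' : v < n := by omega
      rw [← ih hv', ← hm ⟨v, hv'⟩]
      congr 1
      apply Fin.ext
      change v + 1 = (v + 1) % n
      rw [Nat.mod_eq_of_lt hv]
  rw [show i = ⟨(i : ℕ), i.2⟩ from rfl, show j = ⟨(j : ℕ), j.2⟩ from rfl, h0 _ i.2, h0 _ j.2]

end Pool.Agent.Lib.MP_c28bf6_an.Mir
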