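import Pool.Agent.Lib.MP_c28bf6_an.Mir.Stm

open Finset MeasureTheory

namespace Pool.Agent.Lib.MP_c28bf6_an.Mir

lemma LAP_int_real (b : ℝ) (hb : 0 < b) :
    IntegrableOn (fun t : ℝ => t * Real.exp (-(b * t))) (Set.Ioi 0) := by
  have h := integrableOn_rpow_mul_exp_neg_mul_rpow (p := 1) (s := 1) (b := b) (by norm_num)
    one_pos hb
  refine h.congr_fun (fun t ht => ?_) measurableSet_Ioi
  simp only [Real.rpow_one]
  congr 2
  ring

lemma LAP_intC (c : ℂ) (hc : 0 < c.re) :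
    IntegrableOn (fun t : ℝ => (t : ℂ) * Complex.exp (-(c * (t : ℂ)))) (Set.Ioi 0) := by
  have h := LAP_int_real c.re hc
  refine h.mono' ?_ ?_
  · refine Continuous.aestronglyMeasurable ?_
    fun_prop
  · refine (ae_restrict_mem measurableSet_Ioi).mono (fun t ht => ?_)
    have ht' : 0 < t := ht
    rw [norm_mul, Complex.norm_exp, Complex.norm_real, Real.norm_of_nonneg ht'.le]
    simp

/-- the Laplace transform of `t` -/
theorem p_LAP : S_LAP := by
  intro c hc
  have hc0 : c ≠ 0 := by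
    rintro rfl
    simp at hc
  refine ⟨LAP_intC c hc, ?_⟩
  have hderiv : ∀ t ∈ Set.Ici (0 : ℝ), HasDerivAt
      (fun s : ℝ => -((s : ℂ) / c + 1 / c ^ 2) * Complex.exp (-(c * (s : ℂ))))
      ((t : ℂ) * Complex.exp (-(c * (t : ℂ)))) t := by
    intro t _
    have h1 : HasDerivAt (fun s : ℝ => (s : ℂ)) 1 t := Complex.ofRealCLM.hasDerivAt
    have h2 : HasDerivAt (fun s : ℝ => -(c * (s : ℂ))) (-(c * 1)) t := (h1.const_mul c).neg
    have h3 := h2.cexp
    have h4 : HasDerivAt (fun s : ℝ => -((s : ℂ) / c + 1 / c ^ 2)) (-(1 / c)) t :=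
      ((h1.div_const c).add_const (1 / c ^ 2)).neg
    have h5 := h4.mul h3
    refine h5.congr_deriv ?_
    have h6 : ((t : ℂ) / c + 1 / c ^ 2) * c = (t : ℂ) + 1 / c := by
      field_simp
    linear_combination (Complex.exp (-(c * (t : ℂ)))) * h6
  have hlim : Filter.Tendsto
      (fun s : ℝ => -((s : ℂ) / c + 1 / c ^ 2) * Complex.exp (-(c * (s : ℂ)))) Filter.atTop
      (nhds 0) := by
    have e1 := tendsto_rpow_mul_exp_neg_mul_atTop_nhds_zero 1 c.re hc
    have e0 := tendsto_rpow_mul_exp_neg_mul_atTop_nhds_zero 0 c.re hc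
    have e2 := (e1.mul_const ‖c‖⁻¹).add (e0.mul_const ‖1 / c ^ 2‖)
    rw [zero_mul, zero_mul, add_zero] at e2
    refine squeeze_zero_norm' ?_ e2
    filter_upwards [Filter.eventually_ge_atTop (0 : ℝ)] with s hs
    rw [norm_mul, norm_neg, Complex.norm_exp]
    have hre : (-(c * (s : ℂ))).re = -c.re * s := by simp
    rw [hre, Real.rpow_one, Real.rpow_zero, one_mul]
    have hn : ‖(s : ℂ) / c + 1 / c ^ 2‖ ≤ s * ‖c‖⁻¹ + ‖1 / c ^ 2‖ := by
      refine (norm_add_le _ _).trans ?_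
      rw [norm_div, Complex.norm_real, Real.norm_of_nonneg hs, div_eq_mul_inv]
    have := mul_le_mul_of_nonneg_right hn (Real.exp_pos (-c.re * s)).le
    calc ‖(s : ℂ) / c + 1 / c ^ 2‖ * Real.exp (-c.re * s)
        ≤ (s * ‖c‖⁻¹ + ‖1 / c ^ 2‖) * Real.exp (-c.re * s) := this
      _ = _ := by ring
  have h := integral_Ioi_of_hasDerivAt_of_tendsto' hderiv (LAP_intC c hc) hlim
  rw [h]
  simp

end Pool.Agent.Lib.MP_c28bf6_an.Mir
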