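import Pool.Agent.Lib.MP_c28bf6_an.Mir.Stm

/-!
# Mirror theorem, [RP]: charges in equilibrium are mirror symmetric
-/

open Finset MeasureTheory

namespace Pool.Agent.Lib.MP_c28bf6_an.Mir

section

variable {E : Type} [NormedAddCommGroup E] [InnerProductSpace ℝ E]

/-- the linear part of the reflection -/
private noncomputable def RP_L (e : E) : E →ₗ[ℝ] E where
  toFun x := x - (2 * inner ℝ e x) • e
  map_add' x y := by
    rw [inner_add_right, mul_add, add_smul]
    abel
  map_smul' c x := by
    rw [inner_smul_right, RingHom.id_apply, smul_sub, smul_smul]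
    congr 2
    ring

private theorem RP_L_apply (e x : E) : RP_L e x = x - (2 * inner ℝ e x) • e := rfl

private theorem RP_norm {e : E} (he : ‖e‖ = 1) (x : E) : ‖RP_L e x‖ = ‖x‖ := by
  have h1 : ‖RP_L e x‖ ^ 2 = ‖x‖ ^ 2 := by
    rw [RP_L_apply, norm_sub_sq_real, inner_smul_right, norm_smul, mul_pow, he, real_inner_comm x e,
      Real.norm_eq_abs, sq_abs]
    ring
  exact (sq_eq_sq₀ (norm_nonneg _) (norm_nonneg _)).1 h1

private theorem RP_force {e : E} (he : ‖e‖ = 1) (x : E) :
    force (RP_L e x) = RP_L e (force x) := by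
  unfold force
  rw [RP_norm he, map_smul]

private theorem RP_sub (e : E) (a : ℝ) (x y : E) :
    mirror e a x - mirror e a y = RP_L e (x - y) := by
  rw [RP_L_apply]
  unfold mirror
  rw [inner_sub_right]
  have h1 : (2 * (inner ℝ e x - inner ℝ e y)) • e =
      (2 * (inner ℝ e x - a)) • e - (2 * (inner ℝ e y - a)) • e := by
    rw [← sub_smul]
    congr 1
    ring
  rw [h1]
  abel

private theorem RP_invol {e : E} (he : ‖e‖ = 1) (a : ℝ) (x : E) :
    mirror e a (mirror e a x) = x := by
  have h1 : inner ℝ e (mirror e a x) = 2 * a - inner ℝ e x := by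
    unfold mirror
    rw [inner_sub_right, inner_smul_right, real_inner_self_eq_norm_sq, he]
    ring
  have h2 : mirror e a (mirror e a x) =
      mirror e a x - (2 * (inner ℝ e (mirror e a x) - a)) • e := rfl
  rw [h2, h1]
  unfold mirror
  rw [sub_sub, ← add_smul]
  have h3 : 2 * (inner ℝ e x - a) + 2 * (2 * a - inner ℝ e x - a) = 0 := by ring
  rw [h3, zero_smul, sub_zero]

end

/-- [RP] -/
theorem p_RP (h : S_AS) : S_RP := by
  intro E _ _ _ hd ι _ q w σ e a he hq hσ hw
  have hinv : Function.Involutive σ := by
    intro i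
    apply hq
    rw [← hσ, ← hσ, RP_invol he]
  have hv : (fun i => w i - w (σ i)) = 0 := by
    refine h E hd ι q (fun i => w i - w (σ i)) σ e a he hq hσ ?_ ?_
    · intro i
      show w (σ i) - w (σ (σ i)) = -(w i - w (σ i))
      rw [hinv i]
      ring
    · intro j
      have h1 : ∑ i, w (σ i) • force (q i - q j) = 0 := by
        have h2 : ∑ i, w (σ i) • force (q i - q j) = ∑ i, w i • force (q (σ i) - q j) := by
          rw [← Equiv.sum_comp hinv.toPerm (fun i => w i • force (q (σ i) - q j))]
          refine Finset.sum_congr rfl fun i _ => ?_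
          show w (σ i) • force (q i - q j) = w (σ i) • force (q (σ (σ i)) - q j)
          rw [hinv i]
        have h3 : ∀ i, w i • force (q (σ i) - q j) =
            RP_L e (w i • force (q i - q (σ j))) := by
          intro i
          have h4 : q (σ i) - q j = RP_L e (q i - q (σ j)) := by
            rw [← RP_sub e a, hσ, hσ, hinv j]
          rw [h4, RP_force he, map_smul]
        rw [h2, Finset.sum_congr rfl (fun i _ => h3 i), ← map_sum, hw (σ j), map_zero]
      have h5 : ∀ i, (w i - w (σ i)) • force (q i - q j) =
          w i • force (q i - q j) - w (σ i) • force (q i - q j) := fun i => sub_smul _ _ _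
      rw [Finset.sum_congr rfl (fun i _ => h5 i), Finset.sum_sub_distrib, hw j, h1, sub_zero]
  intro i
  have h6 := congrFun hv i
  simp only [Pi.zero_apply] at h6
  linarith

end Pool.Agent.Lib.MP_c28bf6_an.Mir
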